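import Mathlib

open Metric Module

namespace TR624

/-- `ℝⁿ` with its Euclidean norm. -/
abbrev E (n : ℕ) := EuclideanSpace ℝ (Fin n)

/-- `A ⊆ S^{n-1}` meets every `m`-dimensional linear subspace. -/
def Transversal (n m : ℕ) (A : Set (E n)) : Prop :=
  A ⊆ sphere (0 : E n) 1 ∧
    ∀ V : Submodule ℝ (E n), finrank ℝ V = m → (A ∩ (V : Set (E n))).Nonempty

/-- The closed `ε`-neighbourhood of `A` in the sphere. -/
def nbhd (n : ℕ) (A : Set (E n)) (ε : ℝ) : Set (E n) :=
  {x | x ∈ sphere (0 : E n) 1 ∧ infDist x A ≤ ε}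

/-- For every `m`-transversal `A` the neighbourhood `A_ε` contains the unit sphere of some
`k`-dimensional subspace. -/
def Forces (n m : ℕ) (ε : ℝ) (k : ℕ) : Prop :=
  ∀ A : Set (E n), Transversal n m A →
    ∃ W : Submodule ℝ (E n), finrank ℝ W = k ∧ (W : Set (E n)) ∩ sphere (0 : E n) 1 ⊆ nbhd n A ε

/-- `r(n,m,ε)`: the largest `k` with `Forces n m ε k`. -/
noncomputable def r (n m : ℕ) (ε : ℝ) : ℕ := sSup {k : ℕ | Forces n m ε k}

variable {n m k : ℕ} {ε : ℝ} {A : Set (E n)}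

lemma finrank_E : finrank ℝ (E n) = n := by simp [E]

lemma exists_sub (V : Submodule ℝ (E n)) {j : ℕ} (hj : j ≤ finrank ℝ V) :
    ∃ V' : Submodule ℝ (E n), V' ≤ V ∧ finrank ℝ V' = j := by
  classical
  obtain ⟨f, hf⟩ := exists_linearIndependent_of_le_finrank (R := ℝ) (M := V) hj
  refine ⟨Submodule.span ℝ (Set.range fun i => (f i : E n)), ?_, ?_⟩
  · rw [Submodule.span_le]
    rintro _ ⟨i, rfl⟩
    exact (f i).2
  · have hli : LinearIndependent ℝ (fun i => (f i : E n)) :=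
      hf.map' V.subtype (by simp)
    rw [finrank_span_eq_card hli]
    simp

lemma norm_one_of_mem {x : E n} (h : x ∈ sphere (0 : E n) 1) : ‖x‖ = 1 := by simpa using h

lemma Transversal.mono (hA : Transversal n m A) {m' : ℕ} (h : m ≤ m') :
    Transversal n m' A := by
  refine ⟨hA.1, fun V hV => ?_⟩
  obtain ⟨V', hV', hd⟩ := exists_sub V (j := m) (by omega)
  obtain ⟨a, ha, haV⟩ := hA.2 V' hd
  exact ⟨a, ha, hV' haV⟩

lemma Forces.anti_m {m' : ℕ} (h : Forces n m' ε k) (hm : m ≤ m') : Forces n m ε k :=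
  fun A hA => h A (hA.mono hm)

lemma Forces.anti_k {k' : ℕ} (h : Forces n m ε k) (hk : k' ≤ k) : Forces n m ε k' := by
  intro A hA
  obtain ⟨W, hW, hs⟩ := h A hA
  obtain ⟨W', hW', hd⟩ := exists_sub W (j := k') (by omega)
  exact ⟨W', hd, fun x hx => hs ⟨hW' hx.1, hx.2⟩⟩

lemma Forces.mono_ε {ε' : ℝ} (h : Forces n m ε k) (hε : ε ≤ ε') : Forces n m ε' k := by
  intro A hA
  obtain ⟨W, hW, hs⟩ := h A hA
  exact ⟨W, hW, fun x hx => ⟨(hs hx).1, (hs hx).2.trans hε⟩⟩

lemma forces_zero : Forces n m ε 0 := by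
  intro A _
  refine ⟨⊥, by simp, ?_⟩
  rintro x ⟨hx, hx1⟩
  have : x = 0 := by simpa using hx
  subst this
  simp at hx1

lemma exists_unit (V : Submodule ℝ (E n)) (hV : 0 < finrank ℝ V) : ∃ x ∈ V, ‖x‖ = 1 := by
  have : V ≠ ⊥ := by
    rintro rfl
    simp at hV
  obtain ⟨x, hx, h0⟩ := (Submodule.ne_bot_iff V).1 this
  refine ⟨(‖x‖)⁻¹ • x, V.smul_mem _ hx, ?_⟩
  rw [norm_smul, norm_inv, norm_norm, inv_mul_cancel₀ (norm_ne_zero_iff.2 h0)]

lemma transversal_sphere (hm : 1 ≤ m) : Transversal n m (sphere (0 : E n) 1) := by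
  refine ⟨subset_rfl, fun V hV => ?_⟩
  obtain ⟨x, hx, h1⟩ := exists_unit V (by omega)
  exact ⟨x, by simpa using h1, hx⟩

lemma Forces.le (hm : 1 ≤ m) (h : Forces n m ε k) : k ≤ n := by
  obtain ⟨W, hW, -⟩ := h _ (transversal_sphere hm)
  have := Submodule.finrank_le W
  rw [finrank_E] at this
  omega

lemma bdd (hm : 1 ≤ m) : BddAbove {k : ℕ | Forces n m ε k} := ⟨n, fun _ h => h.le hm⟩

lemma le_r_iff (hm : 1 ≤ m) : k ≤ r n m ε ↔ Forces n m ε k := by
  constructor
  · intro h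
    have : Forces n m ε (r n m ε) := Nat.sSup_mem (s := {k : ℕ | Forces n m ε k}) ⟨0, forces_zero⟩ (bdd hm)
    exact this.anti_k h
  · intro h
    exact le_csSup (bdd hm) h

lemma Transversal.nonempty (hA : Transversal n m A) (hmn : m ≤ n) : A.Nonempty := by
  obtain ⟨V, -, hV⟩ := exists_sub (⊤ : Submodule ℝ (E n)) (j := m) (by rw [finrank_top, finrank_E]; exact hmn)
  obtain ⟨a, ha, -⟩ := hA.2 V hV
  exact ⟨a, ha⟩

lemma dist_sq {x y : E n} (hx : ‖x‖ = 1) (hy : ‖y‖ = 1) :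
    dist x y ^ 2 = 2 - 2 * inner ℝ x y := by
  rw [dist_eq_norm, @norm_sub_sq_real, hx, hy]; ring

lemma sqrt_two_le_dist {x y : E n} (hx : ‖x‖ = 1) (hy : ‖y‖ = 1) (h : inner ℝ x y ≤ 0) :
    Real.sqrt 2 ≤ dist x y := by
  apply Real.sqrt_le_iff.2 ⟨dist_nonneg, ?_⟩
  rw [dist_sq hx hy]; linarith

/-- everything is forced for `ε ≥ √2` -/
lemma forces_top (hmn : m < n) (hε : Real.sqrt 2 ≤ ε) : Forces n m ε n := by
  intro A hA
  refine ⟨⊤, by rw [finrank_top, finrank_E], ?_⟩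
  rintro x ⟨-, hx⟩
  refine ⟨hx, ?_⟩
  have hx1 : ‖x‖ = 1 := by simpa using hx
  have hdim : finrank ℝ ((ℝ ∙ x)ᗮ : Submodule ℝ (E n)) = n - 1 := by
    have h1 := Submodule.finrank_add_finrank_orthogonal (ℝ ∙ x)
    rw [finrank_span_singleton (by rintro rfl; simp at hx1), finrank_E] at h1
    omega
  obtain ⟨V, hV, hd⟩ := exists_sub ((ℝ ∙ x)ᗮ) (j := m) (by omega)
  obtain ⟨a, ha, haV⟩ := hA.2 V hd
  have ha1 : ‖a‖ = 1 := norm_one_of_mem (hA.1 ha)
  have hin : inner ℝ x a = 0 := Submodule.mem_orthogonal_singleton_iff_inner_right.1 (hV haV)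
  calc infDist x A ≤ dist x a := infDist_le_dist_of_mem ha
    _ = Real.sqrt 2 := by
      rw [eq_comm, Real.sqrt_eq_iff_mul_self_eq (by norm_num) dist_nonneg, ← sq, dist_sq hx1 ha1, hin]
      norm_num
    _ ≤ ε := hε

/-- Half spheres with prescribed vanishing coordinates. -/
def half (n : ℕ) (T : Finset (Fin n)) (i0 : Fin n) (s : ℝ) : Set (E n) :=
  {x | ‖x‖ = 1 ∧ (∀ i ∈ T, x i = 0) ∧ 0 ≤ s * x i0}

lemma half_transversal (T : Finset (Fin n)) (i0 : Fin n) (s : ℝ) (h : T.card < m) :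
    Transversal n m (half n T i0 s) := by
  classical
  refine ⟨fun x hx => by simpa using hx.1, fun V hV => ?_⟩
  let f : V →ₗ[ℝ] (T → ℝ) :=
    { toFun := fun x i => (x : E n) i
      map_add' := fun x y => by ext i; simp
      map_smul' := fun c x => by ext i; simp }
  have hker : LinearMap.ker f ≠ ⊥ := by
    apply LinearMap.ker_ne_bot_of_finrank_lt
    rw [Module.finrank_fintype_fun_eq_card, hV]
    simpa using h
  obtain ⟨x, hx, h0⟩ := (Submodule.ne_bot_iff _).1 hker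
  have hx0 : (x : E n) ≠ 0 := by simpa using h0
  have hvan : ∀ i ∈ T, (x : E n) i = 0 := fun i hi => congrFun (LinearMap.mem_ker.1 hx) ⟨i, hi⟩
  have hn : ‖(x : E n)‖ ≠ 0 := norm_ne_zero_iff.2 hx0
  by_cases hs : 0 ≤ s * (x : E n) i0
  · refine ⟨(‖(x : E n)‖)⁻¹ • (x : E n), ⟨?_, ?_, ?_⟩, V.smul_mem _ x.2⟩
    · rw [norm_smul, norm_inv, norm_norm, inv_mul_cancel₀ hn]
    · intro i hi
      simp [hvan i hi]
    · simp only [PiLp.smul_apply, smul_eq_mul]
      rw [mul_left_comm]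
      exact mul_nonneg (by positivity) hs
  · refine ⟨-((‖(x : E n)‖)⁻¹ • (x : E n)), ⟨?_, ?_, ?_⟩, V.neg_mem (V.smul_mem _ x.2)⟩
    · rw [norm_neg, norm_smul, norm_inv, norm_norm, inv_mul_cancel₀ hn]
    · intro i hi
      simp [hvan i hi]
    · simp only [PiLp.neg_apply, PiLp.smul_apply, smul_eq_mul]
      push Not at hs
      have : s * -(‖(x : E n)‖⁻¹ * (x : E n) i0) = ‖(x : E n)‖⁻¹ * (-(s * (x : E n) i0)) := by ring
      rw [this]
      exact mul_nonneg (by positivity) (by linarith)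

/-- Separation principle: if an `m`-transversal `A` and a `k`-transversal `C` are at distance
`> ε`, then `Forces n m ε k` fails. -/
lemma not_forces_of_sep {A C : Set (E n)} (hmn : m ≤ n) (hA : Transversal n m A)
    (hC : Transversal n k C) {δ : ℝ} (hδ : ε < δ) (hsep : ∀ a ∈ A, ∀ c ∈ C, δ ≤ dist c a) :
    ¬ Forces n m ε k := by
  intro h
  obtain ⟨W, hW, hs⟩ := h A hA
  obtain ⟨c, hc, hcW⟩ := hC.2 W hW
  have h1 := (hs ⟨hcW, hC.1 hc⟩).2
  have h2 : δ ≤ infDist c A := (le_infDist (hA.nonempty hmn)).2 fun {a} ha => hsep a ha c hc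
  linarith

lemma not_forces_half (hm : 1 ≤ m) (hmn : m ≤ n) (hε : ε < Real.sqrt 2) :
    ¬ Forces n m ε (n - m + 1) := by
  classical
  have hn : 0 < n := by omega
  let i0 : Fin n := ⟨0, hn⟩
  let T1 : Finset (Fin n) := Finset.univ.filter fun i => n - m < i.val
  let T2 : Finset (Fin n) := Finset.univ.filter fun i => 1 ≤ i.val ∧ i.val ≤ n - m
  have hc1 : T1.card < m := by
    have : T1 ⊆ (Finset.univ : Finset (Fin (m-1))).map
        ⟨fun j => (⟨n - m + 1 + j.val, by have := j.2; omega⟩ : Fin n), fun a b h => by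
          simp only [Fin.mk.injEq] at h; ext; omega⟩ := by
      intro i hi
      simp only [T1, Finset.mem_filter, Finset.mem_univ, true_and] at hi
      simp only [Finset.mem_map, Finset.mem_univ, true_and]
      exact ⟨⟨i.val - (n - m + 1), by have := i.2; omega⟩,
        Fin.ext (show n - m + 1 + (i.val - (n - m + 1)) = i.val by omega)⟩
    have := Finset.card_le_card this
    simp at this
    omega
  have hc2 : T2.card < n - m + 1 := by
    have : T2 ⊆ (Finset.univ : Finset (Fin (n-m))).map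
        ⟨fun j => (⟨1 + j.val, by have := j.2; omega⟩ : Fin n), fun a b h => by
          simp only [Fin.mk.injEq] at h; ext; omega⟩ := by
      intro i hi
      simp only [T2, Finset.mem_filter, Finset.mem_univ, true_and] at hi
      simp only [Finset.mem_map, Finset.mem_univ, true_and]
      exact ⟨⟨i.val - 1, by have := i.2; omega⟩,
        Fin.ext (show 1 + (i.val - 1) = i.val by omega)⟩
    have := Finset.card_le_card this
    simp at this
    omega
  refine not_forces_of_sep hmn (half_transversal T1 i0 1 hc1) (half_transversal T2 i0 (-1) hc2) hε ?_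
  rintro a ⟨ha, haT, ha0⟩ c ⟨hc, hcT, hc0⟩
  apply sqrt_two_le_dist hc ha
  rw [PiLp.inner_apply]
  rw [Finset.sum_eq_single i0]
  · simp only [RCLike.inner_apply, conj_trivial]
    nlinarith
  · intro i _ hi
    simp only [RCLike.inner_apply, conj_trivial]
    by_cases h : n - m < i.val
    · rw [haT i (by simp [T1, h])]; ring
    · rw [hcT i (by
        simp only [T2, Finset.mem_filter, Finset.mem_univ, true_and]
        refine ⟨?_, by omega⟩
        by_contra h'
        exact hi (Fin.ext (by simp [i0]; omega)))]; ring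
  · simp

end TR624
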