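import Mathlib
import Pool.Agent.TR624.Defs

open Metric Module Filter Topology

namespace TR624

variable {n m k : ℕ} {ε : ℝ}

lemma grass_compact (W : ℕ → Submodule ℝ (E n)) (hW : ∀ j, finrank ℝ (W j) = k) :
    ∃ φ : ℕ → ℕ, StrictMono φ ∧ ∃ W' : Submodule ℝ (E n), finrank ℝ W' = k ∧
      ∀ x ∈ W', ‖x‖ = 1 → ∃ y : ℕ → E n, (∀ j, y j ∈ W (φ j) ∧ ‖y j‖ = 1) ∧
        Tendsto y atTop (𝓝 x) := by
  classical
  have hex : ∀ j, ∃ v : Fin k → E n, Orthonormal ℝ v ∧ ∀ i, v i ∈ W j := by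
    intro j
    let b := (stdOrthonormalBasis ℝ (W j)).reindex (finCongr (hW j))
    exact ⟨fun i => b i, b.orthonormal.comp_linearIsometry (W j).subtypeₗᵢ, fun i => (b i).2⟩
  choose v hv hvW using hex
  have hball : ∀ j, v j ∈ closedBall (0 : Fin k → E n) 1 := by
    intro j
    rw [mem_closedBall_zero_iff, pi_norm_le_iff_of_nonneg zero_le_one]
    intro i
    rw [(hv j).1 i]
  obtain ⟨w, -, φ, hφ, hlim⟩ := (isCompact_closedBall (0 : Fin k → E n) 1).tendsto_subseq hball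
  have hlimi : ∀ i, Tendsto (fun j => v (φ j) i) atTop (𝓝 (w i)) := fun i =>
    (continuous_apply i).continuousAt.tendsto.comp hlim
  have hw : Orthonormal ℝ w := by
    rw [orthonormal_iff_ite]
    intro i i'
    have h1 : Tendsto (fun j => (inner ℝ (v (φ j) i) (v (φ j) i') : ℝ)) atTop
        (𝓝 (inner ℝ (w i) (w i'))) := (hlimi i).inner (hlimi i')
    have h2 : (fun j => (inner ℝ (v (φ j) i) (v (φ j) i') : ℝ)) = fun _ => if i = i' then 1 else 0 := by
      funext j
      exact orthonormal_iff_ite.1 (hv (φ j)) i i'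
    rw [h2] at h1
    exact tendsto_nhds_unique h1 tendsto_const_nhds
  refine ⟨φ, hφ, Submodule.span ℝ (Set.range w), ?_, ?_⟩
  · rw [finrank_span_eq_card hw.linearIndependent]; simp
  · intro x hx hx1
    obtain ⟨c, rfl⟩ := (Submodule.mem_span_range_iff_exists_fun ℝ).1 hx
    refine ⟨fun j => ∑ i, c i • v (φ j) i, fun j => ⟨?_, ?_⟩, ?_⟩
    · exact Submodule.sum_mem _ fun i _ => Submodule.smul_mem _ _ (hvW _ i)
    · have key : ∀ u : Fin k → E n, Orthonormal ℝ u → ‖∑ i, c i • u i‖ ^ 2 = ∑ i, c i * c i := by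
        intro u hu
        rw [← real_inner_self_eq_norm_sq, hu.inner_sum]
        simp
      have h1 := key _ (hv (φ j))
      have h2 := key _ hw
      rw [hx1] at h2
      rw [← h2] at h1
      nlinarith [norm_nonneg (∑ i, c i • v (φ j) i)]
    · exact tendsto_finset_sum _ fun i _ => (hlimi i).const_smul (c i)

/-- If all larger neighbourhoods contain a `k`-dimensional unit sphere, so does `A_ε`. -/
lemma limit_sphere {A : Set (E n)}
    (h : ∀ δ > 0, ∃ W : Submodule ℝ (E n), finrank ℝ W = k ∧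
      (W : Set (E n)) ∩ sphere (0 : E n) 1 ⊆ nbhd n A (ε + δ)) :
    ∃ W : Submodule ℝ (E n), finrank ℝ W = k ∧
      (W : Set (E n)) ∩ sphere (0 : E n) 1 ⊆ nbhd n A ε := by
  have h' : ∀ j : ℕ, ∃ W : Submodule ℝ (E n), finrank ℝ W = k ∧
      (W : Set (E n)) ∩ sphere (0 : E n) 1 ⊆ nbhd n A (ε + 1 / ((j : ℝ) + 1)) :=
    fun j => h _ (by positivity)
  choose W hW hs using h'
  obtain ⟨φ, hφ, W', hW', hy⟩ := grass_compact W hW
  refine ⟨W', hW', ?_⟩
  rintro x ⟨hx, hx1⟩
  refine ⟨hx1, ?_⟩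
  obtain ⟨y, hy1, hy2⟩ := hy x hx (by simpa using hx1)
  have h1 : Tendsto (fun j => infDist (y j) A) atTop (𝓝 (infDist x A)) :=
    (continuous_infDist_pt A).continuousAt.tendsto.comp hy2
  have h2 : Tendsto (fun j : ℕ => ε + 1 / (((φ j : ℕ) : ℝ) + 1)) atTop (𝓝 (ε + 0)) := by
    apply Tendsto.const_add
    exact tendsto_one_div_add_atTop_nhds_zero_nat.comp hφ.tendsto_atTop
  rw [add_zero] at h2
  refine le_of_tendsto_of_tendsto' h1 h2 fun j => ?_
  exact (hs (φ j) ⟨(hy1 j).1, by simpa using (hy1 j).2⟩).2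

/-- Duality. -/
lemma forces_dual (hm : 1 ≤ m) (hmn : m ≤ n) (hkn : k ≤ n) (h : Forces n m ε k) : Forces n k ε m := by
  intro C hC
  by_contra hcon
  have h1 : ∃ δ > 0, ¬ ∃ W : Submodule ℝ (E n), finrank ℝ W = m ∧
      (W : Set (E n)) ∩ sphere (0 : E n) 1 ⊆ nbhd n C (ε + δ) := by
    by_contra h'
    push Not at h'
    exact hcon (limit_sphere fun δ hδ => h' δ hδ)
  obtain ⟨δ, hδ, hno⟩ := h1
  let A : Set (E n) := {x | x ∈ sphere (0 : E n) 1 ∧ ε + δ < infDist x C}
  have hA : Transversal n m A := by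
    refine ⟨fun x hx => hx.1, fun V hV => ?_⟩
    by_contra hne
    apply hno
    refine ⟨V, hV, ?_⟩
    rintro x ⟨hxV, hx1⟩
    refine ⟨hx1, ?_⟩
    by_contra hlt
    push Not at hlt
    exact hne ⟨x, ⟨hx1, hlt⟩, hxV⟩
  refine not_forces_of_sep (δ := ε + δ) hmn hA hC (by linarith) ?_ h
  intro a ha c hc
  rw [dist_comm]
  exact ha.2.le.trans (infDist_le_dist_of_mem hc)

lemma forces_one_one (hn : 2 ≤ n) (hε : 0 < ε) : Forces n 1 ε 1 := by
  intro A hA
  have hrank : 1 < Module.rank ℝ (E n) := by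
    rw [← Module.finrank_eq_rank, finrank_E]
    exact_mod_cast (by omega : 1 < n)
  have hpre := isPreconnected_sphere hrank (0 : E n) 1
  let U : Set (E n) := {x | infDist x A < ε}
  let U' : Set (E n) := {x | infDist (-x) A < ε}
  have hU : IsOpen U := isOpen_lt (continuous_infDist_pt A) continuous_const
  have hU' : IsOpen U' := isOpen_lt ((continuous_infDist_pt A).comp continuous_neg) continuous_const
  have hmem : ∀ x : E n, ‖x‖ = 1 → x ∈ A ∨ -x ∈ A := by
    intro x hx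
    have hx0 : x ≠ 0 := by rintro rfl; simp at hx
    obtain ⟨a, ha, haV⟩ := hA.2 (ℝ ∙ x) (finrank_span_singleton hx0)
    obtain ⟨c, rfl⟩ := Submodule.mem_span_singleton.1 haV
    have h1 := norm_one_of_mem (hA.1 ha)
    rw [norm_smul, hx, mul_one, Real.norm_eq_abs] at h1
    rcases (abs_eq (zero_le_one' ℝ)).1 h1 with h | h
    · left; simpa [h] using ha
    · right; simpa [h] using ha
  have hcov : sphere (0 : E n) 1 ⊆ U ∪ U' := by
    intro x hx
    rcases hmem x (norm_one_of_mem hx) with h | h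
    · left; show infDist x A < ε; rw [infDist_zero_of_mem h]; exact hε
    · right; show infDist (-x) A < ε; rw [infDist_zero_of_mem h]; exact hε
  obtain ⟨a, ha⟩ := hA.nonempty (by omega)
  have ha1 := norm_one_of_mem (hA.1 ha)
  have hneg : -a ∈ sphere (0 : E n) 1 := by simpa using ha1
  obtain ⟨x, hx, hxU, hxU'⟩ := hpre U U' hU hU' hcov
    ⟨a, hA.1 ha, by show infDist a A < ε; rw [infDist_zero_of_mem ha]; exact hε⟩
    ⟨-a, hneg, by show infDist (- -a) A < ε; rw [neg_neg, infDist_zero_of_mem ha]; exact hε⟩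
  have hx1 := norm_one_of_mem hx
  have hx0 : x ≠ 0 := by rintro rfl; simp at hx1
  refine ⟨ℝ ∙ x, finrank_span_singleton hx0, ?_⟩
  rintro y ⟨hy, hy1⟩
  refine ⟨hy1, ?_⟩
  obtain ⟨c, rfl⟩ := Submodule.mem_span_singleton.1 hy
  have h1 := norm_one_of_mem hy1
  rw [norm_smul, hx1, mul_one, Real.norm_eq_abs] at h1
  rcases (abs_eq (zero_le_one' ℝ)).1 h1 with h | h
  · rw [h, one_smul]; exact le_of_lt hxU
  · rw [h, neg_one_smul]; exact le_of_lt hxU'

end TR624
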