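import Mathlib
import Pool.Agent.TR624.Compact

open Metric Module Filter Topology

namespace TR624

variable {n m k : ℕ} {ε : ℝ}

/-- Bump weight. -/
noncomputable def bump (δ : ℝ) (s : ℝ) : ℝ := max 0 (δ - |s|)

lemma bump_cont (δ : ℝ) : Continuous (bump δ) := by
  unfold bump
  exact continuous_const.max (continuous_const.sub continuous_abs)

lemma bump_nonneg (δ s : ℝ) : 0 ≤ bump δ s := le_max_left _ _

lemma bump_pos_iff {δ s : ℝ} : 0 < bump δ s ↔ |s| < δ := by
  unfold bump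
  constructor
  · intro h
    rcases lt_max_iff.1 h with h | h
    · exact absurd h (lt_irrefl _)
    · linarith
  · intro h
    exact lt_max_of_lt_right (by linarith)

/-- primitive of the bump -/
noncomputable def prim (δ : ℝ) (s : ℝ) : ℝ := ∫ x in (0 : ℝ)..s, bump δ x

lemma prim_deriv (δ s : ℝ) : HasDerivAt (prim δ) (bump δ s) s :=
  ((bump_cont δ).integral_hasStrictDerivAt 0 s).hasDerivAt

lemma prim_cont (δ : ℝ) : Continuous (prim δ) :=
  continuous_iff_continuousAt.2 fun s => (prim_deriv δ s).continuousAt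

/-- Variational lemma: in a subspace `U`, some unit vector `u` has `∑ bump(⟨u,a⟩) a` orthogonal to
`U ∩ u^⊥`. -/
lemma exists_critical (U : Submodule ℝ (E n)) (hU : 0 < finrank ℝ U) (T : Finset (E n)) (δ : ℝ) :
    ∃ u ∈ U, ‖u‖ = 1 ∧ ∀ v ∈ U, (inner ℝ u v : ℝ) = 0 →
      ∑ a ∈ T, bump δ (inner ℝ u a) * (inner ℝ v a : ℝ) = 0 := by
  have hK : IsCompact (sphere (0 : E n) 1 ∩ (U : Set (E n))) :=
    (isCompact_sphere _ _).inter_right U.closed_of_finiteDimensional
  obtain ⟨x0, hx0, hx01⟩ := exists_unit U hU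
  have hne : (sphere (0 : E n) 1 ∩ (U : Set (E n))).Nonempty := ⟨x0, by simpa using hx01, hx0⟩
  let h : E n → ℝ := fun u => ∑ a ∈ T, prim δ (inner ℝ u a)
  have hcont : Continuous h := by
    apply continuous_finsetSum
    intro a _
    exact (prim_cont δ).comp (continuous_id.inner continuous_const)
  obtain ⟨u, ⟨hu, huU⟩, hmax⟩ := hK.exists_isMaxOn hne hcont.continuousOn
  have hu1 : ‖u‖ = 1 := norm_one_of_mem hu
  refine ⟨u, huU, hu1, ?_⟩
  -- first for unit `v`
  have key : ∀ v ∈ U, ‖v‖ = 1 → (inner ℝ u v : ℝ) = 0 →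
      ∑ a ∈ T, bump δ (inner ℝ u a) * (inner ℝ v a : ℝ) = 0 := by
    intro v hv hv1 huv
    let g : ℝ → ℝ := fun θ => h (Real.cos θ • u + Real.sin θ • v)
    have hg : HasDerivAt g (∑ a ∈ T, bump δ (inner ℝ u a) * (inner ℝ v a : ℝ)) 0 := by
      have h1 : g = fun θ => ∑ a ∈ T, prim δ (Real.cos θ * inner ℝ u a + Real.sin θ * inner ℝ v a) := by
        funext θ
        simp only [g, h, inner_add_left, inner_smul_left, conj_trivial]
      rw [h1]
      apply HasDerivAt.fun_sum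
      intro a _
      have h2 : HasDerivAt (fun θ : ℝ => Real.cos θ * (inner ℝ u a : ℝ) + Real.sin θ * inner ℝ v a)
          (-Real.sin 0 * (inner ℝ u a : ℝ) + Real.cos 0 * inner ℝ v a) 0 :=
        ((Real.hasDerivAt_cos 0).mul_const _).add ((Real.hasDerivAt_sin 0).mul_const _)
      have h3 := (prim_deriv δ (Real.cos 0 * (inner ℝ u a : ℝ) + Real.sin 0 * inner ℝ v a)).comp 0 h2
      exact h3.congr_deriv (by simp)
    have hloc : IsLocalMax g 0 := by
      refine Eventually.of_forall fun θ => ?_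
      have hmem : Real.cos θ • u + Real.sin θ • v ∈ sphere (0 : E n) 1 ∩ (U : Set (E n)) := by
        refine ⟨?_, U.add_mem (U.smul_mem _ huU) (U.smul_mem _ hv)⟩
        have h4 : ‖Real.cos θ • u + Real.sin θ • v‖ ^ 2 = 1 := by
          rw [@norm_add_sq_real, inner_smul_left, inner_smul_right, huv, norm_smul, norm_smul,
            hu1, hv1, Real.norm_eq_abs, Real.norm_eq_abs, mul_one, mul_one, sq_abs, sq_abs]
          simp
        have h5 : ‖Real.cos θ • u + Real.sin θ • v‖ = 1 := by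
          nlinarith [norm_nonneg (Real.cos θ • u + Real.sin θ • v)]
        simpa using h5
      have h6 := hmax hmem
      simp only [Set.mem_ofPred_eq] at h6
      simpa [g] using h6
    exact hloc.hasDerivAt_eq_zero hg
  intro v hv huv
  by_cases hv0 : v = 0
  · subst hv0; simp
  · have hn : ‖v‖ ≠ 0 := norm_ne_zero_iff.2 hv0
    have h1 := key (‖v‖⁻¹ • v) (U.smul_mem _ hv)
      (by rw [norm_smul, norm_inv, norm_norm, inv_mul_cancel₀ hn])
      (by rw [inner_smul_right, huv, mul_zero])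
    simp only [inner_smul_left, conj_trivial] at h1
    have h2 : ∑ a ∈ T, bump δ (inner ℝ u a) * (‖v‖⁻¹ * inner ℝ v a) =
        ‖v‖⁻¹ * ∑ a ∈ T, bump δ (inner ℝ u a) * (inner ℝ v a : ℝ) := by
      rw [Finset.mul_sum]
      exact Finset.sum_congr rfl fun a _ => by ring
    rw [h2] at h1
    rcases mul_eq_zero.1 h1 with h | h
    · exact absurd h (inv_ne_zero hn)
    · exact h

lemma finrank_perp_in (U : Submodule ℝ (E n)) (hU : finrank ℝ U = m + 1) {u : E n} (hu : u ∈ U)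
    (hu1 : ‖u‖ = 1) : finrank ℝ ((U ⊓ (ℝ ∙ u)ᗮ : Submodule ℝ (E n))) = m := by
  have hu0 : u ≠ 0 := by rintro rfl; simp at hu1
  have hle : (ℝ ∙ u) ≤ U := by rw [Submodule.span_singleton_le_iff_mem]; exact hu
  have h1 := Submodule.finrank_add_inf_finrank_orthogonal hle
  rw [finrank_span_singleton hu0, hU, inf_comm] at h1
  omega

/-- Points of an `m`-transversal compact set in an `(m+1)`-dimensional subspace. -/
lemma gpair_delta (hm : 1 ≤ m) {K : Set (E n)} (hK : IsCompact K) (hT : Transversal n m K)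
    (U : Submodule ℝ (E n)) (hU : finrank ℝ U = m + 1) {δ : ℝ} (hδ : 0 < δ)
    (hδ1 : δ < 1) : ∃ a ∈ K, ∃ b ∈ K, (inner ℝ a b : ℝ) ≤ -1/m + 2 * δ ^ 2 := by
  classical
  by_contra hcon
  push Not at hcon
  have hm0 : (0 : ℝ) < m := by exact_mod_cast hm
  have hKU : IsCompact (K ∩ (U : Set (E n))) := hK.inter_right U.closed_of_finiteDimensional
  obtain ⟨t, htK, htf, hcov⟩ := hKU.finite_cover_balls hδ
  let T : Finset (E n) := htf.toFinset
  have hTK : ∀ a ∈ T, a ∈ K ∧ a ∈ U := fun a ha => htK (htf.mem_toFinset.1 ha)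
  obtain ⟨u, huU, hu, hcrit⟩ := exists_critical U (by omega) T δ
  -- a net point near `u^⊥`
  obtain ⟨a0, ha0, ha0V⟩ := hT.2 _ (finrank_perp_in U hU huU hu)
  have ha0u : (inner ℝ u a0 : ℝ) = 0 := Submodule.mem_orthogonal_singleton_iff_inner_right.1 ha0V.2
  obtain ⟨a1, ha1, hd1⟩ : ∃ a1 ∈ t, dist a0 a1 < δ := by
    have := hcov ⟨ha0, ha0V.1⟩
    simpa using this
  have hψ1 : 0 < bump δ (inner ℝ u a1) := by
    rw [bump_pos_iff]
    have : (inner ℝ u a1 : ℝ) = inner ℝ u (a1 - a0) := by rw [inner_sub_right, ha0u, sub_zero]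
    rw [this]
    calc _ ≤ ‖u‖ * ‖a1 - a0‖ := abs_real_inner_le_norm _ _
      _ = dist a0 a1 := by rw [hu, one_mul, dist_eq_norm, norm_sub_rev]
      _ < δ := hd1
  let J : Finset (E n) := T.filter fun a => 0 < bump δ (inner ℝ u a)
  have hJ1 : a1 ∈ J := Finset.mem_filter.2 ⟨htf.mem_toFinset.2 ha1, hψ1⟩
  let p : E n → E n := fun a => a - (inner ℝ u a : ℝ) • u
  have huu : (inner ℝ u u : ℝ) = 1 := by rw [real_inner_self_eq_norm_sq, hu]; norm_num
  have hup : ∀ a, (inner ℝ u (p a) : ℝ) = 0 := by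
    intro a
    simp only [p, inner_sub_right, inner_smul_right, huu]
    ring
  have hpU : ∀ a ∈ T, p a ∈ U := fun a ha => U.sub_mem (hTK a ha).2 (U.smul_mem _ huU)
  have hsumJ : ∀ f : E n → ℝ, ∑ a ∈ J, bump δ (inner ℝ u a) * f a =
      ∑ a ∈ T, bump δ (inner ℝ u a) * f a := by
    intro f
    apply Finset.sum_subset (Finset.filter_subset _ _)
    intro a haT haJ
    have : ¬ 0 < bump δ (inner ℝ u a) := fun h => haJ (Finset.mem_filter.2 ⟨haT, h⟩)
    have : bump δ (inner ℝ u a) = 0 := le_antisymm (not_lt.1 this) (bump_nonneg _ _)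
    rw [this, zero_mul]
  have hsump : ∑ a ∈ J, bump δ (inner ℝ u a) • p a = 0 := by
    set G := ∑ a ∈ J, bump δ (inner ℝ u a) • p a with hG
    have hGU : G ∈ U := Submodule.sum_mem _ fun a ha =>
      U.smul_mem _ (hpU a (Finset.mem_filter.1 ha).1)
    have hGu : (inner ℝ u G : ℝ) = 0 := by
      rw [hG, inner_sum]
      exact Finset.sum_eq_zero fun a _ => by rw [inner_smul_right, hup, mul_zero]
    have h1 := hcrit G hGU hGu
    have h2 : (inner ℝ G G : ℝ) = 0 := by
      conv_lhs => rw [hG]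
      rw [sum_inner]
      rw [← hG]
      have h3 : ∀ a ∈ J, (inner ℝ (bump δ (inner ℝ u a) • p a) G : ℝ) =
          bump δ (inner ℝ u a) * inner ℝ G a := by
        intro a _
        rw [inner_smul_left, conj_trivial]
        congr 1
        simp only [p, inner_sub_left, inner_smul_left, hGu, conj_trivial]
        rw [mul_zero, sub_zero, real_inner_comm]
      rw [Finset.sum_congr rfl h3, hsumJ]
      exact h1
    exact inner_self_eq_zero.1 h2
  have hpos : 0 < ∑ a ∈ J, bump δ (inner ℝ u a) :=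
    Finset.sum_pos (fun a ha => (Finset.mem_filter.1 ha).2) ⟨a1, hJ1⟩
  have h0 : (0 : E n) ∈ convexHull ℝ (p '' (J : Set (E n))) := by
    have h1 : J.centerMass (fun a => bump δ (inner ℝ u a)) p ∈ convexHull ℝ (p '' (J : Set (E n))) :=
      Finset.centerMass_mem_convexHull J (fun a _ => bump_nonneg _ _) hpos
        (fun a ha => Set.mem_image_of_mem p ha)
    have h2 : J.centerMass (fun a => bump δ (inner ℝ u a)) p = 0 := by
      rw [Finset.centerMass, hsump, smul_zero]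
    rwa [h2] at h1
  obtain ⟨ι, _, z, w, hz, hind, hw, hw1, hwz⟩ := eq_pos_convex_span_of_mem_convexHull h0
  have hza : ∀ i, ∃ a ∈ J, p a = z i := fun i => by
    obtain ⟨a, ha, h⟩ := hz ⟨i, rfl⟩
    exact ⟨a, ha, h⟩
  choose a ha haz using hza
  have hcard : Fintype.card ι ≤ m + 1 := by
    have h1 := hind.card_le_finrank_succ
    have h2 : vectorSpan ℝ (Set.range z) ≤ U ⊓ (ℝ ∙ u)ᗮ := by
      rw [vectorSpan_def, Submodule.span_le]
      rintro _ ⟨x, ⟨i, rfl⟩, y, ⟨j, rfl⟩, rfl⟩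
      refine ⟨?_, ?_⟩
      · simp only [vsub_eq_sub, ← haz]
        exact U.sub_mem (hpU _ (Finset.mem_filter.1 (ha i)).1) (hpU _ (Finset.mem_filter.1 (ha j)).1)
      · rw [SetLike.mem_coe, Submodule.mem_orthogonal_singleton_iff_inner_right]
        simp only [vsub_eq_sub, ← haz, inner_sub_right, hup, sub_zero]
    have h3 := Submodule.finrank_mono h2
    rw [finrank_perp_in U hU huU hu] at h3
    omega
  have hsmall : ∀ i, |(inner ℝ u (a i) : ℝ)| < δ := fun i =>
    bump_pos_iff.1 (Finset.mem_filter.1 (ha i)).2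
  have haK : ∀ i, a i ∈ K := fun i => (hTK _ (Finset.mem_filter.1 (ha i)).1).1
  have hinner : ∀ i j, (inner ℝ (z i) (z j) : ℝ) =
      inner ℝ (a i) (a j) - inner ℝ u (a i) * inner ℝ u (a j) := by
    intro i j
    rw [← haz, ← haz]
    simp only [p, inner_sub_left, inner_sub_right, inner_smul_left, inner_smul_right, huu,
      conj_trivial]
    rw [real_inner_comm u (a i)]
    ring
  have h1δ : 0 < 1 - δ ^ 2 := by nlinarith
  have hmδ : δ ^ 2 / m ≤ δ ^ 2 := by
    rw [div_le_iff₀ hm0]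
    have : (1 : ℝ) ≤ m := by exact_mod_cast hm
    nlinarith [sq_nonneg δ]
  have hterm : ∀ i j, w i * w j * (if i = j then (1 - δ ^ 2) else -(1 - δ ^ 2) / m) ≤
      w i * w j * (inner ℝ (z i) (z j) : ℝ) := by
    intro i j
    apply mul_le_mul_of_nonneg_left _ (mul_pos (hw i) (hw j)).le
    rw [hinner]
    have hi := hsmall i
    have hj := hsmall j
    rw [abs_lt] at hi hj
    split_ifs with h
    · subst h
      have h1 : (inner ℝ (a i) (a i) : ℝ) = 1 := by
        rw [real_inner_self_eq_norm_sq, norm_one_of_mem (hT.1 (haK i))]; norm_num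
      rw [h1]
      nlinarith
    · have h1 := hcon _ (haK i) _ (haK j)
      have h2 : -(1 - δ ^ 2) / (m : ℝ) = -1 / m + δ ^ 2 / m := by ring
      rw [h2]
      nlinarith
  obtain ⟨i0⟩ : Nonempty ι := by
    by_contra hne
    rw [not_nonempty_iff] at hne
    simp at hw1
  have hstrict : w i0 * w i0 * (if i0 = i0 then (1 - δ ^ 2) else -(1 - δ ^ 2) / m) <
      w i0 * w i0 * (inner ℝ (z i0) (z i0) : ℝ) := by
    apply mul_lt_mul_of_pos_left _ (mul_pos (hw i0) (hw i0))
    rw [hinner, if_pos rfl]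
    have hi := hsmall i0
    rw [abs_lt] at hi
    have h1 : (inner ℝ (a i0) (a i0) : ℝ) = 1 := by
      rw [real_inner_self_eq_norm_sq, norm_one_of_mem (hT.1 (haK i0))]; norm_num
    rw [h1]
    nlinarith
  have hsum2 : ∑ i, ∑ j, w i * w j * (inner ℝ (z i) (z j) : ℝ) = 0 := by
    have h1 : (inner ℝ (∑ i, w i • z i) (∑ j, w j • z j) : ℝ) = 0 := by rw [hwz]; simp
    rw [sum_inner] at h1
    simp only [inner_sum, inner_smul_left, inner_smul_right, conj_trivial] at h1
    rw [← h1]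
    refine Finset.sum_congr rfl fun i _ => Finset.sum_congr rfl fun j _ => by ring
  have hlt : ∑ i, ∑ j, w i * w j * (if i = j then (1 - δ ^ 2) else -(1 - δ ^ 2) / m) <
      ∑ i, ∑ j, w i * w j * (inner ℝ (z i) (z j) : ℝ) := by
    apply Finset.sum_lt_sum (fun i _ => Finset.sum_le_sum fun j _ => hterm i j)
    exact ⟨i0, Finset.mem_univ _, Finset.sum_lt_sum (fun j _ => hterm i0 j) ⟨i0, Finset.mem_univ _, hstrict⟩⟩
  rw [hsum2] at hlt
  have heq : ∑ i, ∑ j, w i * w j * (if i = j then (1 - δ ^ 2) else -(1 - δ ^ 2) / m) =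
      (1 - δ ^ 2) * ((1 + 1 / m) * ∑ i, w i ^ 2 - 1 / m) := by
    have h1 : ∀ i, ∑ j, w i * w j * (if i = j then (1 - δ ^ 2) else -(1 - δ ^ 2) / m) =
        (1 - δ ^ 2) * ((1 + 1 / m) * w i ^ 2 - 1 / m * w i) := by
      intro i
      have : ∀ j, w i * w j * (if i = j then (1 - δ ^ 2) else -(1 - δ ^ 2) / m) =
          w i * w j * (-(1 - δ ^ 2) / m) +
            (if i = j then w i * w j * ((1 + 1 / m) * (1 - δ ^ 2)) else 0) := by
        intro j
        split_ifs <;> ring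
      rw [Finset.sum_congr rfl fun j _ => this j, Finset.sum_add_distrib, Finset.sum_ite_eq,
        if_pos (Finset.mem_univ _), ← Finset.sum_mul, ← Finset.mul_sum, hw1]
      ring
    rw [Finset.sum_congr rfl fun i _ => h1 i, ← Finset.mul_sum, Finset.sum_sub_distrib,
      ← Finset.mul_sum, ← Finset.mul_sum, hw1]
    ring
  rw [heq] at hlt
  have hcs : (1 : ℝ) ≤ (m + 1) * ∑ i, w i ^ 2 := by
    have h1 := sq_sum_le_card_mul_sum_sq (s := (Finset.univ : Finset ι)) (f := w)
    rw [hw1] at h1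
    have h2 : ((Finset.univ : Finset ι).card : ℝ) ≤ m + 1 := by
      rw [Finset.card_univ]; exact_mod_cast hcard
    have h3 : 0 ≤ ∑ i, w i ^ 2 := Finset.sum_nonneg fun i _ => sq_nonneg _
    nlinarith
  have h5 : 0 ≤ (1 + 1 / (m : ℝ)) * ∑ i, w i ^ 2 - 1 / m := by
    have : (1 + 1 / (m : ℝ)) * ∑ i, w i ^ 2 - 1 / m = ((m + 1) * ∑ i, w i ^ 2 - 1) / m := by
      field_simp
    rw [this]
    exact div_nonneg (by linarith) hm0.le
  have : 0 ≤ (1 - δ ^ 2) * ((1 + 1 / m) * ∑ i, w i ^ 2 - 1 / m) := mul_nonneg h1δ.le h5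
  linarith

lemma gpair (hm : 1 ≤ m) (hmn : m < n) {K : Set (E n)} (hK : IsCompact K) (hT : Transversal n m K) :
    ∃ a ∈ K, ∃ b ∈ K, (inner ℝ a b : ℝ) ≤ -1/m := by
  have hne : K.Nonempty := hT.nonempty hmn.le
  obtain ⟨U, -, hU⟩ := exists_sub (⊤ : Submodule ℝ (E n)) (j := m + 1)
    (by rw [finrank_top, finrank_E]; omega)
  obtain ⟨⟨a, b⟩, ⟨ha, hb⟩, hmin⟩ := (hK.prod hK).exists_isMinOn (hne.prod hne)
    (f := fun q : E n × E n => (inner ℝ q.1 q.2 : ℝ)) (by fun_prop)
  refine ⟨a, ha, b, hb, ?_⟩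
  by_contra hlt
  push Not at hlt
  set η := (inner ℝ a b : ℝ) - -1 / m with hη
  have hηpos : 0 < η := by linarith
  obtain ⟨δ, hδ, hδ1, hδ2⟩ : ∃ δ : ℝ, 0 < δ ∧ δ < 1 ∧ 2 * δ ^ 2 < η := by
    refine ⟨min (1/3) (η / 2), by positivity, by
      have := min_le_left (1/3 : ℝ) (η/2); linarith, ?_⟩
    have h1 := min_le_left (1/3 : ℝ) (η/2)
    have h2 := min_le_right (1/3 : ℝ) (η/2)
    have h3 : 0 < min (1/3 : ℝ) (η/2) := by positivity
    nlinarith
  obtain ⟨a', ha', b', hb', h⟩ := gpair_delta hm hK hT U hU hδ hδ1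
  have h1 := hmin (show ((a', b') : E n × E n) ∈ K ×ˢ K from ⟨ha', hb'⟩)
  simp only [Set.mem_ofPred_eq] at h1
  linarith

lemma gen_upper (hm : 1 ≤ m) (hmn : m < n)
    (hε : Real.sqrt (2 - Real.sqrt (2 * (m + 1) / m)) ≤ ε) : Forces n m ε 1 := by
  intro A hA
  have hm0 : (0 : ℝ) < m := by exact_mod_cast hm
  have hcl : closure A ⊆ sphere (0 : E n) 1 := closure_minimal hA.1 isClosed_sphere
  have hT : Transversal n m (closure A) := ⟨hcl, fun V hV => by
    obtain ⟨a, ha, haV⟩ := hA.2 V hV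
    exact ⟨a, subset_closure ha, haV⟩⟩
  have hK : IsCompact (closure A) := (isCompact_sphere (0 : E n) 1).of_isClosed_subset isClosed_closure hcl
  obtain ⟨a, ha, b, hb, hab⟩ := gpair hm hmn hK hT
  have ha1 := norm_one_of_mem (hcl ha)
  have hb1 := norm_one_of_mem (hcl hb)
  have haa : (inner ℝ a a : ℝ) = 1 := by rw [real_inner_self_eq_norm_sq, ha1]; norm_num
  have hbb : (inner ℝ b b : ℝ) = 1 := by rw [real_inner_self_eq_norm_sq, hb1]; norm_num
  set N := ‖a - b‖ with hN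
  have hN2 : N ^ 2 = 2 - 2 * inner ℝ a b := by
    rw [hN, @norm_sub_sq_real, ha1, hb1]; ring
  have hs3 : Real.sqrt (2 * (m + 1) / m) ≤ N := by
    apply Real.sqrt_le_iff.2 ⟨norm_nonneg _, ?_⟩
    have : 2 * ((m : ℝ) + 1) / m = 2 - 2 * (-1 / m) := by field_simp; ring
    rw [this, hN2]
    linarith
  have hs3pos : 0 < Real.sqrt (2 * (m + 1) / m) := Real.sqrt_pos.2 (by positivity)
  have hNpos : 0 < N := lt_of_lt_of_le hs3pos hs3
  let x : E n := N⁻¹ • (a - b)
  have hx1 : ‖x‖ = 1 := by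
    rw [norm_smul, norm_inv, Real.norm_eq_abs, abs_of_pos hNpos, ← hN, inv_mul_cancel₀ hNpos.ne']
  have hx0 : x ≠ 0 := by intro h; rw [h] at hx1; simp at hx1
  have hxa : (inner ℝ x a : ℝ) = N / 2 := by
    rw [inner_smul_left, inner_sub_left, haa, real_inner_comm]
    simp only [conj_trivial]
    have : (inner ℝ a b : ℝ) = 1 - N ^ 2 / 2 := by linarith
    rw [this]
    field_simp
    ring
  have hxb : (inner ℝ (-x) b : ℝ) = N / 2 := by
    rw [inner_neg_left, inner_smul_left, inner_sub_left, hbb]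
    simp only [conj_trivial]
    have : (inner ℝ a b : ℝ) = 1 - N ^ 2 / 2 := by linarith
    rw [this]
    field_simp
    ring
  have hda : dist x a ≤ ε := by
    refine le_trans ?_ hε
    apply Real.le_sqrt_of_sq_le
    rw [dist_sq hx1 ha1, hxa]
    linarith
  have hdb : dist (-x) b ≤ ε := by
    refine le_trans ?_ hε
    apply Real.le_sqrt_of_sq_le
    rw [dist_sq (by rw [norm_neg]; exact hx1) hb1, hxb]
    linarith
  refine ⟨ℝ ∙ x, finrank_span_singleton hx0, ?_⟩
  rintro y ⟨hy, hy1⟩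
  refine ⟨hy1, ?_⟩
  obtain ⟨c, rfl⟩ := Submodule.mem_span_singleton.1 hy
  have h1 := norm_one_of_mem hy1
  rw [norm_smul, hx1, mul_one, Real.norm_eq_abs] at h1
  rw [← infDist_closure]
  rcases (abs_eq (zero_le_one' ℝ)).1 h1 with h | h
  · rw [h, one_smul]; exact (infDist_le_dist_of_mem ha).trans hda
  · rw [h, neg_one_smul]; exact (infDist_le_dist_of_mem hb).trans hdb

end TR624
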