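import Mathlib
import Pool.Agent.TR624.Compact

open Metric Module Filter Topology

namespace TR624

variable {n m k : ℕ} {ε : ℝ}

/-- Two transversal sets at mutual angles `≥ 90°` need `m + k > n`. -/
lemma cone_contra {A C : Set (E n)} (hA : Transversal n m A) (hC : Transversal n k C)
    (hmk : m + k ≤ n) (h : ∀ a ∈ A, ∀ c ∈ C, (inner ℝ a c : ℝ) ≤ 0) : False := by
  classical
  set S : Submodule ℝ (E n) := Submodule.span ℝ C with hS
  have hperp := Submodule.finrank_add_finrank_orthogonal S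
  rw [finrank_E] at hperp
  by_cases hs : finrank ℝ S + k ≤ n
  · obtain ⟨V, hV, hd⟩ := exists_sub Sᗮ (j := k) (by omega)
    obtain ⟨c, hc, hcV⟩ := hC.2 V hd
    have h1 : c ∈ S := Submodule.subset_span hc
    have h2 : (inner ℝ c c : ℝ) = 0 := (Submodule.mem_orthogonal S c).1 (hV hcV) c h1
    have h3 := norm_one_of_mem (hC.1 hc)
    rw [real_inner_self_eq_norm_sq, h3] at h2
    norm_num at h2
  · obtain ⟨b, hbC, hbS, -⟩ := Submodule.exists_fun_fin_finrank_span_eq ℝ C
    let q : E n := ∑ i, b i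
    have hdim : finrank ℝ S - 1 ≤ finrank ℝ ((S ⊓ (ℝ ∙ q)ᗮ : Submodule ℝ (E n))) := by
      have h1 := Submodule.finrank_sup_add_finrank_inf_eq S (ℝ ∙ q)ᗮ
      have h2 := Submodule.finrank_add_finrank_orthogonal (ℝ ∙ q)
      have h3 : finrank ℝ (ℝ ∙ q : Submodule ℝ (E n)) ≤ 1 := by
        simpa using finrank_span_le_card ({q} : Set (E n))
      have h4 := Submodule.finrank_le (S ⊔ (ℝ ∙ q)ᗮ)
      rw [finrank_E] at h2 h4
      omega
    obtain ⟨V, hV, hd⟩ := exists_sub (S ⊓ (ℝ ∙ q)ᗮ) (j := m) (by omega)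
    obtain ⟨a, ha, haV⟩ := hA.2 V hd
    have haS : a ∈ S := (hV haV).1
    have haq : (inner ℝ q a : ℝ) = 0 :=
      Submodule.mem_orthogonal_singleton_iff_inner_right.1 (hV haV).2
    have hsum : ∑ i, (inner ℝ a (b i) : ℝ) = 0 := by
      rw [← inner_sum, real_inner_comm]; exact haq
    have hz : ∀ i, (inner ℝ a (b i) : ℝ) = 0 := by
      have := (Finset.sum_eq_zero_iff_of_nonpos (s := Finset.univ)
        (f := fun i => (inner ℝ a (b i) : ℝ)) (fun i _ => h a ha (b i) (hbC i))).1 hsum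
      exact fun i => this i (Finset.mem_univ i)
    have h5 : a ∈ Sᗮ := by
      rw [hS, ← hbS, Submodule.mem_orthogonal]
      intro x hx
      induction hx using Submodule.span_induction with
      | mem x hx =>
        obtain ⟨i, rfl⟩ := hx
        rw [real_inner_comm]; exact hz i
      | zero => simp
      | add x y _ _ hx hy => rw [inner_add_left, hx, hy, add_zero]
      | smul c x _ hx => rw [inner_smul_left, hx, mul_zero]
    have h2 : (inner ℝ a a : ℝ) = 0 := (Submodule.mem_orthogonal S a).1 h5 a haS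
    have h3 := norm_one_of_mem (hA.1 ha)
    rw [real_inner_self_eq_norm_sq, h3] at h2
    norm_num at h2

/-- limit of transversal sets along an ultrafilter -/
lemma limit_transversal (𝓤 : Ultrafilter ℕ) (A : ℕ → Set (E n)) (hA : ∀ j, Transversal n m (A j)) :
    Transversal n m {x | x ∈ sphere (0 : E n) 1 ∧ Tendsto (fun j => infDist x (A j)) 𝓤 (𝓝 0)} := by
  refine ⟨fun x hx => hx.1, fun V hV => ?_⟩
  have hex : ∀ j, ∃ a, a ∈ A j ∧ a ∈ V := fun j => by
    obtain ⟨a, ha, haV⟩ := (hA j).2 V hV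
    exact ⟨a, ha, haV⟩
  choose a ha haV using hex
  have hK : IsCompact (sphere (0 : E n) 1 ∩ (V : Set (E n))) :=
    (isCompact_sphere _ _).inter_right V.closed_of_finiteDimensional
  have hle : ((𝓤.map a : Ultrafilter (E n)) : Filter (E n)) ≤ 𝓟 (sphere (0 : E n) 1 ∩ (V : Set (E n))) := by
    rw [Ultrafilter.coe_map, le_principal_iff, mem_map]
    exact univ_mem' fun j => ⟨(hA j).1 (ha j), haV j⟩
  obtain ⟨x, hx, hlim⟩ := isCompact_iff_ultrafilter_le_nhds.1 hK (𝓤.map a) hle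
  refine ⟨x, ⟨hx.1, ?_⟩, hx.2⟩
  have ht : Tendsto a 𝓤 (𝓝 x) := by rw [Tendsto, ← Ultrafilter.coe_map]; exact hlim
  have hd : Tendsto (fun j => dist x (a j)) 𝓤 (𝓝 0) := by
    have := (tendsto_const_nhds (x := x) (f := (𝓤 : Filter ℕ))).dist ht
    simpa using this
  exact squeeze_zero (fun j => infDist_nonneg) (fun j => infDist_le_dist_of_mem (ha j)) hd

lemma near (hm : 1 ≤ m) (hk : 1 ≤ k) (hmk : m + k ≤ n) :
    ∃ ε1 < Real.sqrt 2, Forces n m ε1 k := by
  by_contra hcon
  push Not at hcon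
  have h1 : ∀ j : ℕ, ¬ Forces n m (Real.sqrt 2 - 1 / ((j : ℝ) + 1)) k := fun j =>
    hcon _ (by have : (0 : ℝ) < 1 / ((j : ℝ) + 1) := by positivity
               linarith)
  unfold Forces at h1
  push Not at h1
  choose A hA hno using h1
  let C : ℕ → Set (E n) := fun j => {x | x ∈ sphere (0 : E n) 1 ∧
    Real.sqrt 2 - 1 / ((j : ℝ) + 1) < infDist x (A j)}
  have hC : ∀ j, Transversal n k (C j) := by
    intro j
    refine ⟨fun x hx => hx.1, fun V hV => ?_⟩
    have := hno j V hV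
    rw [Set.not_subset] at this
    obtain ⟨x, ⟨hxV, hx1⟩, hx2⟩ := this
    refine ⟨x, ⟨hx1, ?_⟩, hxV⟩
    by_contra hlt
    push Not at hlt
    exact hx2 ⟨hx1, hlt⟩
  let 𝓤 : Ultrafilter ℕ := Filter.hyperfilter ℕ
  have hTA := limit_transversal 𝓤 A hA
  have hTC := limit_transversal 𝓤 C hC
  refine cone_contra hTA hTC hmk ?_
  rintro a ⟨ha1, hat⟩ c ⟨hc1, hct⟩
  have hle : (𝓤 : Filter ℕ) ≤ atTop := Nat.hyperfilter_le_atTop
  have h0 : Tendsto (fun j : ℕ => 1 / ((j : ℝ) + 1)) 𝓤 (𝓝 0) :=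
    tendsto_one_div_add_atTop_nhds_zero_nat.mono_left hle
  have hlim : Tendsto (fun j : ℕ => Real.sqrt 2 - 1 / ((j : ℝ) + 1) - infDist a (A j) - infDist c (C j)
      - 2 * (1 / ((j : ℝ) + 1))) 𝓤 (𝓝 (Real.sqrt 2 - 0 - 0 - 0 - 2 * 0)) :=
    ((((tendsto_const_nhds.sub h0).sub hat).sub hct).sub (h0.const_mul 2))
  have hdist : Real.sqrt 2 ≤ dist c a := by
    have : Real.sqrt 2 - 0 - 0 - 0 - 2 * 0 ≤ dist c a := by
      refine le_of_tendsto hlim (Eventually.of_forall fun j => ?_)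
      have hpos : (0 : ℝ) < 1 / ((j : ℝ) + 1) := by positivity
      have hAne : (A j).Nonempty := (hA j).nonempty (by omega)
      have hCne : (C j).Nonempty := (hC j).nonempty (by omega)
      obtain ⟨a', ha', hda⟩ := (infDist_lt_iff hAne).1 (lt_add_of_pos_right (infDist a (A j)) hpos)
      obtain ⟨c', hc', hdc⟩ := (infDist_lt_iff hCne).1 (lt_add_of_pos_right (infDist c (C j)) hpos)
      have h3 : infDist c' (A j) ≤ dist c' a' := infDist_le_dist_of_mem ha'
      have h4 := hc'.2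
      have h5 : dist c' a' ≤ dist c' c + dist c a + dist a a' := dist_triangle4 _ _ _ _
      rw [dist_comm c' c] at h5
      linarith
    linarith
  have hca := norm_one_of_mem hc1
  have haa := norm_one_of_mem ha1
  have h6 := dist_sq hca haa
  rw [real_inner_comm] at h6
  have h7 : (2 : ℝ) ≤ dist c a ^ 2 := by
    have := Real.sq_sqrt (show (0 : ℝ) ≤ 2 by norm_num)
    nlinarith [Real.sqrt_nonneg 2]
  linarith

end TR624
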