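import Mathlib
import Pool.Agent.TR624.Compact

open Metric Module Filter Topology

namespace TR624

variable {n m k : ℕ} {ε : ℝ}

/-- positions of the minimum -/
noncomputable def argminSet (x : Fin n → ℝ) : Finset (Fin n) := by
  classical exact Finset.univ.filter fun i => ∀ l, x i ≤ x l

lemma mem_argmin {x : Fin n → ℝ} {i : Fin n} : i ∈ argminSet x ↔ ∀ l, x i ≤ x l := by
  classical
  simp [argminSet]

lemma argmin_nonempty (hn : 0 < n) (x : Fin n → ℝ) : (argminSet x).Nonempty := by
  have : Nonempty (Fin n) := ⟨⟨0, hn⟩⟩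
  obtain ⟨i, hi⟩ := Finite.exists_min x
  exact ⟨i, mem_argmin.2 hi⟩

/-- improvement step, one-sided -/
lemma improve_aux (x d : Fin n → ℝ) (c : ℝ) (hc : ∀ i ∈ argminSet x, d i = c) (hn : 0 < n)
    (hd : ∃ i, d i < c) : ∃ t : ℝ, (argminSet x).card < (argminSet fun i => x i + t * d i).card := by
  classical
  obtain ⟨i0, hi0⟩ := argmin_nonempty hn x
  have hmin := mem_argmin.1 hi0
  let R : Finset (Fin n) := Finset.univ.filter fun i => d i < c
  have hR : R.Nonempty := by
    obtain ⟨i, hi⟩ := hd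
    exact ⟨i, by simp [R, hi]⟩
  obtain ⟨i1, hi1, hmin1⟩ := R.exists_min_image (fun i => (x i - x i0) / (c - d i)) hR
  have hi1' : d i1 < c := by simpa [R] using hi1
  set t := (x i1 - x i0) / (c - d i1) with ht
  have ht0 : 0 ≤ t := div_nonneg (by linarith [hmin i1]) (by linarith)
  refine ⟨t, ?_⟩
  have hlow : ∀ l, x i0 + t * c ≤ x l + t * d l := by
    intro l
    by_cases hl : d l < c
    · have h1 := hmin1 l (by simp [R, hl])
      have h2 : t * (c - d l) ≤ x l - x i0 := by
        rw [← le_div_iff₀ (by linarith)]; exact h1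
      linarith
    · push Not at hl
      have h1 := hmin l
      nlinarith
  have hsub : insert i1 (argminSet x) ⊆ argminSet fun i => x i + t * d i := by
    intro i hi
    rw [mem_argmin]
    intro l
    rcases Finset.mem_insert.1 hi with rfl | hi
    · have h1 : x i + t * d i = x i0 + t * c := by
        have : t * (c - d i) = x i - x i0 := by
          rw [ht, div_mul_cancel₀]; linarith
        linarith
      rw [h1]; exact hlow l
    · have h1 : x i = x i0 := le_antisymm ((mem_argmin.1 hi) i0) (hmin i)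
      rw [hc i hi, h1]; exact hlow l
  have hnot : i1 ∉ argminSet x := fun h => by
    have := hc i1 h
    linarith
  have := Finset.card_le_card hsub
  rw [Finset.card_insert_of_notMem hnot] at this
  omega

lemma improve (x d : Fin n → ℝ) (c : ℝ) (hc : ∀ i ∈ argminSet x, d i = c) (hn : 0 < n)
    (hsum : ∑ i, d i = 0) (hd : d ≠ 0) :
    ∃ t : ℝ, (argminSet x).card < (argminSet fun i => x i + t * d i).card := by
  by_cases h : ∃ i, d i < c
  · exact improve_aux x d c hc hn h
  · push Not at h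
    have h2 : ∃ i, (-d) i < -c := by
      by_contra hcon
      push Not at hcon
      have heq : ∀ i, d i = c := fun i => le_antisymm (by have := hcon i; simp at this; linarith) (h i)
      have : (n : ℝ) * c = 0 := by
        rw [← hsum, Finset.sum_congr rfl fun i _ => heq i]; simp
      have hc0 : c = 0 := by
        rcases mul_eq_zero.1 this with h' | h'
        · exfalso
          have : n = 0 := by exact_mod_cast h'
          omega
        · exact h'
      exact hd (by ext i; rw [heq i, hc0]; rfl)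
    obtain ⟨t, ht⟩ := improve_aux x (-d) (-c) (fun i hi => by simp [hc i hi]) hn h2
    refine ⟨-t, ?_⟩
    have : (fun i => x i + -t * d i) = fun i => x i + t * (-d) i := by
      funext i; simp
    rw [this]
    exact ht

/-- existence of a direction: constant on `T`, killed by `f` -/
lemma exists_dir (V : Submodule ℝ (E n)) (T : Finset (Fin n)) (i0 : Fin n) (hi0 : i0 ∈ T)
    (f : E n →ₗ[ℝ] ℝ) (hcard : T.card < finrank ℝ V) :
    ∃ d ∈ V, d ≠ 0 ∧ f d = 0 ∧ ∀ i ∈ T, d i = d i0 := by
  classical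
  let L : V →ₗ[ℝ] (({i // i ∈ T.erase i0} → ℝ) × ℝ) :=
    { toFun := fun x => (fun i => (x : E n) i - (x : E n) i0, f x)
      map_add' := fun x y => by
        refine Prod.ext ?_ (by simp)
        funext i
        simp only [Submodule.coe_add, PiLp.add_apply, Prod.fst_add, Pi.add_apply]
        ring
      map_smul' := fun c x => by
        refine Prod.ext ?_ (by simp)
        funext i
        simp only [SetLike.val_smul, PiLp.smul_apply, smul_eq_mul, RingHom.id_apply, Prod.smul_fst,
          Pi.smul_apply]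
        ring }
  have hker : LinearMap.ker L ≠ ⊥ := by
    apply LinearMap.ker_ne_bot_of_finrank_lt
    rw [Module.finrank_prod, Module.finrank_fintype_fun_eq_card, finrank_self, Fintype.card_coe,
      Finset.card_erase_of_mem hi0]
    have : 0 < T.card := Finset.card_pos.2 ⟨i0, hi0⟩
    omega
  obtain ⟨d, hd, h0⟩ := (Submodule.ne_bot_iff _).1 hker
  have hL := LinearMap.mem_ker.1 hd
  refine ⟨d, d.2, by simpa using h0, (Prod.ext_iff.1 hL).2, ?_⟩
  intro i hi
  by_cases h : i = i0
  · rw [h]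
  · have := congrFun (Prod.ext_iff.1 hL).1 ⟨i, Finset.mem_erase.2 ⟨h, hi⟩⟩
    have h2 : (d : E n) i - (d : E n) i0 = 0 := this
    linarith

noncomputable def sumF (n : ℕ) : E n →ₗ[ℝ] ℝ :=
  { toFun := fun x => ∑ i, x i
    map_add' := fun x y => by simp [Finset.sum_add_distrib]
    map_smul' := fun c x => by simp [Finset.mul_sum] }

lemma sumF_apply (x : E n) : sumF n x = ∑ i, x i := rfl

lemma many_min (V : Submodule ℝ (E n)) (hV : 0 < finrank ℝ V) :
    ∃ x ∈ V, x ≠ 0 ∧ 0 ≤ ∑ i, x i ∧ finrank ℝ V ≤ (argminSet (x : Fin n → ℝ)).card := by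
  classical
  have hn : 0 < n := by
    have := Submodule.finrank_le V
    rw [finrank_E] at this
    omega
  by_cases hcase : ∃ x ∈ V, ∑ i, x i ≠ 0
  · -- case I
    obtain ⟨x0, hx0, hs0⟩ := hcase
    have key : ∀ c ≤ finrank ℝ V, ∃ x ∈ V, ∑ i, x i = 1 ∧ c ≤ (argminSet (x : Fin n → ℝ)).card := by
      intro c
      induction c with
      | zero =>
        intro _
        refine ⟨(∑ i, x0 i)⁻¹ • x0, V.smul_mem _ hx0, ?_, Nat.zero_le _⟩
        simp only [PiLp.smul_apply, smul_eq_mul, ← Finset.mul_sum]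
        exact inv_mul_cancel₀ hs0
      | succ c ih =>
        intro hc
        obtain ⟨x, hx, hs, hcard⟩ := ih (by omega)
        by_cases hlt : c < (argminSet (x : Fin n → ℝ)).card
        · exact ⟨x, hx, hs, hlt⟩
        · have heq : (argminSet (x : Fin n → ℝ)).card = c := by omega
          obtain ⟨i0, hi0⟩ := argmin_nonempty hn (x : Fin n → ℝ)
          obtain ⟨d, hd, hd0, hfd, hdc⟩ := exists_dir V (argminSet (x : Fin n → ℝ)) i0 hi0 (sumF n) (by omega)
          rw [sumF_apply] at hfd
          obtain ⟨t, ht⟩ := improve (x : Fin n → ℝ) (d : Fin n → ℝ) (d i0) hdc hn hfd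
            (fun h => hd0 (by ext i; exact congrFun h i))
          refine ⟨x + t • d, V.add_mem hx (V.smul_mem _ hd), ?_, ?_⟩
          · simp only [PiLp.add_apply, PiLp.smul_apply, smul_eq_mul, Finset.sum_add_distrib,
              ← Finset.mul_sum, hfd, hs]
            ring
          · have h2 : ((x + t • d : E n) : Fin n → ℝ) = fun i => x i + t * d i := by
              funext i; simp
            rw [h2]
            omega
    obtain ⟨x, hx, hs, hcard⟩ := key _ le_rfl
    refine ⟨x, hx, ?_, by rw [hs]; exact zero_le_one, hcard⟩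
    rintro rfl
    simp at hs
  · -- case II
    push Not at hcase
    have key : ∀ c ≤ finrank ℝ V, ∃ x ∈ V, x ≠ 0 ∧ c ≤ (argminSet (x : Fin n → ℝ)).card := by
      intro c
      induction c with
      | zero =>
        intro _
        obtain ⟨x, hx, hx1⟩ := exists_unit V hV
        exact ⟨x, hx, by rintro rfl; simp at hx1, Nat.zero_le _⟩
      | succ c ih =>
        intro hc
        obtain ⟨x, hx, hx0, hcard⟩ := ih (by omega)
        by_cases hlt : c < (argminSet (x : Fin n → ℝ)).card
        · exact ⟨x, hx, hx0, hlt⟩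
        · have heq : (argminSet (x : Fin n → ℝ)).card = c := by omega
          obtain ⟨i0, hi0⟩ := argmin_nonempty hn (x : Fin n → ℝ)
          obtain ⟨d, hd, hd0, hfd, hdc⟩ := exists_dir V (argminSet (x : Fin n → ℝ)) i0 hi0
            ((innerSL ℝ x : E n →L[ℝ] ℝ) : E n →ₗ[ℝ] ℝ) (by omega)
          have hfd' : (inner ℝ x d : ℝ) = 0 := by simpa using hfd
          obtain ⟨t, ht⟩ := improve (x : Fin n → ℝ) (d : Fin n → ℝ) (d i0) hdc hn (hcase d hd)
            (fun h => hd0 (by ext i; exact congrFun h i))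
          refine ⟨x + t • d, V.add_mem hx (V.smul_mem _ hd), ?_, ?_⟩
          · intro h
            have h1 : (inner ℝ x (x + t • d) : ℝ) = 0 := by rw [h, inner_zero_right]
            rw [inner_add_right, inner_smul_right, hfd', mul_zero, add_zero] at h1
            exact hx0 (inner_self_eq_zero.1 h1)
          · have h2 : ((x + t • d : E n) : Fin n → ℝ) = fun i => x i + t * d i := by
              funext i; simp
            rw [h2]
            omega
    obtain ⟨x, hx, hx0, hcard⟩ := key _ le_rfl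
    exact ⟨x, hx, hx0, by rw [hcase x hx], hcard⟩

/-- The set of unit vectors with nonnegative coordinate sum whose minimal coordinate is attained at
least `m` times. -/
def skel (n m : ℕ) : Set (E n) :=
  {x | ‖x‖ = 1 ∧ 0 ≤ ∑ i, x i ∧ m ≤ (argminSet (x : Fin n → ℝ)).card}

lemma skel_transversal (hm : 1 ≤ m) : Transversal n m (skel n m) := by
  refine ⟨fun x hx => by simpa using hx.1, fun V hV => ?_⟩
  obtain ⟨x, hx, hx0, hs, hcard⟩ := many_min V (by omega)
  have hn : 0 < ‖x‖ := norm_pos_iff.2 hx0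
  refine ⟨‖x‖⁻¹ • x, ⟨?_, ?_, ?_⟩, V.smul_mem _ hx⟩
  · rw [norm_smul, norm_inv, norm_norm, inv_mul_cancel₀ hn.ne']
  · simp only [PiLp.smul_apply, smul_eq_mul, ← Finset.mul_sum]
    exact mul_nonneg (by positivity) hs
  · have : argminSet ((‖x‖⁻¹ • x : E n) : Fin n → ℝ) = argminSet (x : Fin n → ℝ) := by
      ext i
      rw [mem_argmin, mem_argmin]
      simp only [PiLp.smul_apply, smul_eq_mul]
      have hpos : 0 < ‖x‖⁻¹ := by positivity
      constructor
      · intro h l
        exact le_of_mul_le_mul_left (h l) hpos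
      · intro h l
        exact mul_le_mul_of_nonneg_left (h l) hpos.le
    rw [this]
    omega

/-- decomposition of a vector of `skel` -/
lemma skel_decomp (hm : 1 ≤ m) (hmn : m < n) {x : E n} (hx : x ∈ skel n m) :
    ∃ (μ : ℝ) (β : Fin n → ℝ), (∀ i, 0 ≤ β i) ∧ (∀ i, x i = μ + β i) ∧
      (∑ i, β i) ^ 2 ≤ n * (n - m) / m ∧ 0 ≤ n * μ + ∑ i, β i := by
  classical
  obtain ⟨hx1, hs, hcard⟩ := hx
  have hn : 0 < n := by omega
  have hm0 : (0 : ℝ) < m := by exact_mod_cast hm
  have hn0 : (0 : ℝ) < n := by exact_mod_cast hn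
  have hmn' : (m : ℝ) < n := by exact_mod_cast hmn
  obtain ⟨i0, hi0⟩ := argmin_nonempty hn (x : Fin n → ℝ)
  have hmin := mem_argmin.1 hi0
  refine ⟨x i0, fun i => x i - x i0, fun i => by linarith [hmin i], fun i => by ring, ?_, ?_⟩
  swap
  · rw [Finset.sum_sub_distrib]
    simp only [Finset.sum_const, Finset.card_univ, Fintype.card_fin, nsmul_eq_mul]
    linarith
  set β : Fin n → ℝ := fun i => x i - x i0 with hβ
  set T := argminSet (x : Fin n → ℝ) with hT
  have hβT : ∀ i ∈ T, β i = 0 := by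
    intro i hi
    have : x i = x i0 := le_antisymm ((mem_argmin.1 hi) i0) (hmin i)
    simp [hβ, this]
  have hsupp : ∑ i, β i = ∑ i ∈ Tᶜ, β i := by
    rw [← Finset.sum_add_sum_compl T, Finset.sum_eq_zero hβT, zero_add]
  have hsupp2 : ∑ i ∈ Tᶜ, β i ^ 2 = ∑ i, β i ^ 2 := by
    rw [eq_comm, ← Finset.sum_add_sum_compl T (fun i => β i ^ 2),
      Finset.sum_eq_zero (s := T) (fun i hi => by rw [hβT i hi]; ring), zero_add]
  have hcs : (∑ i, β i) ^ 2 ≤ (n - m) * ∑ i, β i ^ 2 := by
    rw [hsupp, ← hsupp2]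
    have h1 := sq_sum_le_card_mul_sum_sq (s := Tᶜ) (f := β)
    have h2 : ((Tᶜ.card : ℕ) : ℝ) ≤ n - m := by
      rw [Finset.card_compl, Fintype.card_fin]
      have : T.card ≤ n := by
        have := Finset.card_le_univ T
        simpa using this
      rw [Nat.cast_sub this]
      have : (m : ℝ) ≤ T.card := by exact_mod_cast hcard
      linarith
    have h3 : 0 ≤ ∑ i ∈ Tᶜ, β i ^ 2 := Finset.sum_nonneg fun i _ => sq_nonneg _
    nlinarith
  have hnorm : ∑ i, x i ^ 2 = 1 := by
    have := EuclideanSpace.norm_sq_eq x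
    rw [hx1] at this
    simp only [Real.norm_eq_abs, sq_abs] at this
    linarith
  have hexp : ∑ i, x i ^ 2 = ∑ i, β i ^ 2 - (∑ i, β i) ^ 2 / n + (∑ i, x i) ^ 2 / n := by
    have h1 : ∑ i, β i = ∑ i, x i - n * x i0 := by
      simp only [hβ, Finset.sum_sub_distrib, Finset.sum_const, Finset.card_univ, Fintype.card_fin,
        nsmul_eq_mul]
    have h2 : ∑ i, β i ^ 2 = ∑ i, x i ^ 2 - 2 * x i0 * ∑ i, x i + n * x i0 ^ 2 := by
      have : ∀ i, β i ^ 2 = x i ^ 2 - 2 * x i0 * x i + x i0 ^ 2 := fun i => by simp only [hβ]; ring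
      rw [Finset.sum_congr rfl fun i _ => this i, Finset.sum_add_distrib, Finset.sum_sub_distrib,
        ← Finset.mul_sum]
      simp
    rw [h2, h1]
    field_simp
    ring
  have hge : 0 ≤ (∑ i, x i) ^ 2 / n := by positivity
  set B := ∑ i, β i with hB
  set Q := ∑ i, β i ^ 2 with hQ
  have h4 : Q - B ^ 2 / n ≤ 1 := by linarith
  rw [le_div_iff₀ hm0]
  have h5 : B ^ 2 * n ≤ (n - m) * (n * Q) := by nlinarith
  have h6 : n * Q ≤ n + B ^ 2 := by
    have : n * (Q - B ^ 2 / n) ≤ n * 1 := mul_le_mul_of_nonneg_left h4 hn0.le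
    have h7 : n * (Q - B ^ 2 / n) = n * Q - B ^ 2 := by field_simp
    linarith
  nlinarith

lemma skel_inner (hm : 1 ≤ m) (hmn : m < n) {x y : E n} (hx : x ∈ skel n m) (hy : y ∈ skel n m) :
    -((n : ℝ) - m) / m ≤ inner ℝ x y := by
  have hm0 : (0 : ℝ) < m := by exact_mod_cast hm
  have hn0 : (0 : ℝ) < n := by exact_mod_cast (by omega : 0 < n)
  obtain ⟨μ, β, hβ, hxμ, hB, hS⟩ := skel_decomp hm hmn hx
  obtain ⟨μ', β', hβ', hyμ, hB', hS'⟩ := skel_decomp hm hmn hy
  have h1 : (inner ℝ x y : ℝ) = n * μ * μ' + μ * ∑ i, β' i + μ' * ∑ i, β i + ∑ i, β i * β' i := by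
    rw [PiLp.inner_apply]
    simp only [RCLike.inner_apply, conj_trivial]
    have : ∀ i, y i * x i = μ * μ' + μ * β' i + μ' * β i + β i * β' i := by
      intro i; rw [hxμ, hyμ]; ring
    rw [Finset.sum_congr rfl fun i _ => this i, Finset.sum_add_distrib, Finset.sum_add_distrib,
      Finset.sum_add_distrib]
    simp only [Finset.sum_const, Finset.card_univ, Fintype.card_fin, nsmul_eq_mul, Finset.mul_sum]
    ring
  have h2 : 0 ≤ ∑ i, β i * β' i := Finset.sum_nonneg fun i _ => mul_nonneg (hβ i) (hβ' i)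
  set B := ∑ i, β i with hBd
  set B' := ∑ i, β' i with hBd'
  have h3 : n * (n * μ * μ' + μ * B' + μ' * B) = (n * μ + B) * (n * μ' + B') - B * B' := by ring
  have h4 : B * B' ≤ n * (n - m) / m := by nlinarith [sq_nonneg (B - B')]
  have h5 : 0 ≤ (n * μ + B) * (n * μ' + B') := mul_nonneg hS hS'
  have h6 : -((n : ℝ) * (n - m) / m) ≤ n * (n * μ * μ' + μ * B' + μ' * B) := by
    rw [h3]; linarith
  have h7 : n * (-((n : ℝ) - m) / m) ≤ n * (n * μ * μ' + μ * B' + μ' * B) := by
    have : n * (-((n : ℝ) - m) / m) = -((n : ℝ) * (n - m) / m) := by ring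
    rw [this]; exact h6
  have h8 := le_of_mul_le_mul_left h7 hn0
  rw [h1]
  linarith

lemma gen_lower (hm : 1 ≤ m) (hmn : m < n)
    (hε : ε < Real.sqrt (2 - Real.sqrt (2 * n / m))) (hε0 : 0 ≤ ε) : ¬ Forces n m ε 1 := by
  intro h
  have hm0 : (0 : ℝ) < m := by exact_mod_cast hm
  have hn0 : (0 : ℝ) < n := by exact_mod_cast (by omega : 0 < n)
  set s := Real.sqrt (2 * n / m) with hs
  have hspos : 0 < s := Real.sqrt_pos.2 (by positivity)
  have hs2 : s ^ 2 = 2 * n / m := Real.sq_sqrt (by positivity)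
  have hslt : 0 < 2 - s := by
    by_contra hcon
    push Not at hcon
    rw [Real.sqrt_eq_zero_of_nonpos hcon] at hε
    linarith
  obtain ⟨W, hW, hsub⟩ := h (skel n m) (skel_transversal hm)
  obtain ⟨x, hx, hx1⟩ := exists_unit W (by omega)
  have hne : (skel n m).Nonempty := (skel_transversal hm).nonempty hmn.le
  have h1 := (hsub ⟨hx, by simpa using hx1⟩).2
  have h2 := (hsub ⟨W.neg_mem hx, by simpa using hx1⟩).2
  obtain ⟨a, ha, hda⟩ := (infDist_lt_iff hne).1 (lt_of_le_of_lt h1 hε)
  obtain ⟨b, hb, hdb⟩ := (infDist_lt_iff hne).1 (lt_of_le_of_lt h2 hε)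
  have key : ∀ z c : E n, ‖z‖ = 1 → c ∈ skel n m → dist z c < Real.sqrt (2 - s) →
      s / 2 < inner ℝ z c := by
    intro z c hz hc hd
    have h3 := dist_sq hz hc.1
    have h4 : dist z c ^ 2 < 2 - s := by
      rw [← Real.sq_sqrt hslt.le]
      exact pow_lt_pow_left₀ hd dist_nonneg (by norm_num)
    linarith
  have hp := key x a hx1 ha hda
  have hq := key (-x) b (by rw [norm_neg]; exact hx1) hb hdb
  rw [inner_neg_left] at hq
  set p := (inner ℝ x a : ℝ) with hpd
  set q := (inner ℝ x b : ℝ) with hqd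
  have hxx : (inner ℝ x x : ℝ) = 1 := by rw [real_inner_self_eq_norm_sq, hx1]; norm_num
  have hnorm : ∀ c : E n, ‖c‖ = 1 → ‖c - (inner ℝ x c : ℝ) • x‖ ^ 2 = 1 - (inner ℝ x c : ℝ) ^ 2 := by
    intro c hc
    rw [← real_inner_self_eq_norm_sq]
    have hcc : (inner ℝ c c : ℝ) = 1 := by rw [real_inner_self_eq_norm_sq, hc]; norm_num
    simp only [inner_sub_left, inner_sub_right, inner_smul_left, inner_smul_right, conj_trivial, hxx, hcc]
    rw [real_inner_comm x c]
    ring
  have hna := hnorm a ha.1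
  have hnb := hnorm b hb.1
  have hin : (inner ℝ (a - p • x) (b - q • x) : ℝ) = inner ℝ a b - p * q := by
    simp only [inner_sub_left, inner_sub_right, inner_smul_left, inner_smul_right, conj_trivial, hxx]
    rw [real_inner_comm x a, ← hpd, ← hqd]
    ring
  have hcs := real_inner_le_norm (a - p • x) (b - q • x)
  rw [← hpd] at hna
  rw [← hqd] at hnb
  set X := ‖a - p • x‖ with hX
  set Y := ‖b - q • x‖ with hY
  have hX0 : 0 ≤ X := norm_nonneg _
  have hY0 : 0 ≤ Y := norm_nonneg _
  have hpp : s ^ 2 / 4 < p ^ 2 := by nlinarith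
  have hqq : s ^ 2 / 4 < q ^ 2 := by nlinarith
  have hXY : X * Y < 1 - s ^ 2 / 4 := by nlinarith [sq_nonneg (X - Y)]
  have hpq : p * q < -(s ^ 2 / 4) := by nlinarith
  have h9 := skel_inner hm hmn ha hb
  have h10 : (inner ℝ a b : ℝ) < 1 - s ^ 2 / 2 := by linarith
  have h11 : 1 - s ^ 2 / 2 = -((n : ℝ) - m) / m := by
    rw [hs2]; field_simp; ring
  linarith

end TR624
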