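import Mathlib

/-- If `∑_{i<k} (u i + z v i)^(2i+1) (1+z²)^(k-1-i)` vanishes for all real `z`, then all `u i, v i` vanish. -/
theorem TR624.poly_zero (k : ℕ) (u v : ℕ → ℝ)
    (h : ∀ z : ℝ, ∑ i ∈ Finset.range k, (u i + z * v i) ^ (2 * i + 1) * (1 + z ^ 2) ^ (k - 1 - i) = 0) :
    ∀ i < k, u i = 0 ∧ v i = 0 := by
  induction k with
  | zero => intro i hi; omega
  | succ k ih =>
    have hk : u k = 0 ∧ v k = 0 := by
      set P : Polynomial ℝ := ∑ i ∈ Finset.range (k + 1),
        (Polynomial.C (u i) + Polynomial.X * Polynomial.C (v i)) ^ (2 * i + 1) *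
          (1 + Polynomial.X ^ 2) ^ (k + 1 - 1 - i) with hP
      have hP0 : P = 0 := by
        apply Polynomial.funext
        intro z
        rw [hP, Polynomial.eval_finsetSum, Polynomial.eval_zero, ← h z]
        apply Finset.sum_congr rfl
        intro i _
        simp only [Polynomial.eval_mul, Polynomial.eval_pow, Polynomial.eval_add,
          Polynomial.eval_C, Polynomial.eval_X, Polynomial.eval_one]
      have h1 : Polynomial.aeval Complex.I P = 0 := by rw [hP0, map_zero]
      rw [hP, map_sum, Finset.sum_range_succ] at h1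
      have h2 : ∀ i ∈ Finset.range k, Polynomial.aeval Complex.I
          ((Polynomial.C (u i) + Polynomial.X * Polynomial.C (v i)) ^ (2 * i + 1) *
          (1 + Polynomial.X ^ 2) ^ (k + 1 - 1 - i)) = 0 := by
        intro i hi
        have hi' := Finset.mem_range.1 hi
        rw [map_mul, map_pow _ (1 + Polynomial.X ^ 2)]
        have h3 : Polynomial.aeval Complex.I (1 + Polynomial.X ^ 2 : Polynomial ℝ) = 0 := by
          simp
        rw [h3, zero_pow (by omega), mul_zero]
      rw [Finset.sum_eq_zero h2, zero_add] at h1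
      have h4 : k + 1 - 1 - k = 0 := by omega
      rw [h4, pow_zero, mul_one, map_pow] at h1
      have h5 := pow_eq_zero_iff (n := 2 * k + 1) (by omega) |>.1 h1
      simp only [map_add, map_mul, Polynomial.aeval_C, Polynomial.aeval_X] at h5
      have h6 : ((u k : ℝ) : ℂ) + Complex.I * ((v k : ℝ) : ℂ) = 0 := h5
      have hre := congrArg Complex.re h6
      have him := congrArg Complex.im h6
      simp at hre him
      exact ⟨hre, him⟩
    have hrest : ∀ i < k, u i = 0 ∧ v i = 0 := by
      apply ih
      intro z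
      have hz := h z
      rw [Finset.sum_range_succ, hk.1, hk.2] at hz
      have hlast : (0 + z * 0 : ℝ) ^ (2 * k + 1) * (1 + z ^ 2) ^ (k + 1 - 1 - k) = 0 := by
        rw [mul_zero, add_zero, zero_pow (by omega), zero_mul]
      rw [hlast, add_zero] at hz
      have hf : ∑ i ∈ Finset.range k, (u i + z * v i) ^ (2 * i + 1) * (1 + z ^ 2) ^ (k + 1 - 1 - i) =
          (1 + z ^ 2) * ∑ i ∈ Finset.range k,
            (u i + z * v i) ^ (2 * i + 1) * (1 + z ^ 2) ^ (k - 1 - i) := by
        rw [Finset.mul_sum]
        apply Finset.sum_congr rfl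
        intro i hi
        have hi' := Finset.mem_range.1 hi
        have h7 : k + 1 - 1 - i = (k - 1 - i) + 1 := by omega
        rw [h7, pow_succ]
        ring
      rw [hf] at hz
      have h8 : (1 + z ^ 2) ≠ 0 := by positivity
      exact (mul_eq_zero.1 hz).resolve_left h8
    intro i hi
    rcases Nat.lt_succ_iff_lt_or_eq.1 hi with h9 | h9
    · exact hrest i h9
    · rw [h9]; exact hk
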