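import Mathlib
import Pool.Agent.TR624.Compact
import Pool.Agent.TR624.J2

open Metric Module Filter Topology

namespace TR624

variable {n m k : ℕ} {ε : ℝ}

/-- the odd function `∑ x_i^(2i+1)` -/
noncomputable def pf (n : ℕ) (x : E n) : ℝ := ∑ i : Fin n, (x i) ^ (2 * (i : ℕ) + 1)

lemma pf_cont : Continuous (pf n) := by
  unfold pf
  fun_prop

lemma pf_neg (x : E n) : pf n (-x) = - pf n x := by
  unfold pf
  rw [← Finset.sum_neg_distrib]
  refine Finset.sum_congr rfl fun i _ => ?_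
  rw [PiLp.neg_apply, Odd.neg_pow ⟨(i : ℕ), rfl⟩]

lemma exists_pf_ne (V : Submodule ℝ (E n)) (hV : finrank ℝ V = 2) :
    ∃ x ∈ V, ‖x‖ = 1 ∧ pf n x ≠ 0 := by
  classical
  by_contra hcon
  push Not at hcon
  let b := (stdOrthonormalBasis ℝ V).reindex (finCongr hV)
  have hb : Orthonormal ℝ (fun i => (b i : E n)) := b.orthonormal.comp_linearIsometry V.subtypeₗᵢ
  obtain ⟨u, hu⟩ : ∃ u : E n, u = ((b 0 : V) : E n) := ⟨_, rfl⟩
  obtain ⟨v, hv⟩ : ∃ v : E n, v = ((b 1 : V) : E n) := ⟨_, rfl⟩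
  have huV : u ∈ V := hu ▸ (b 0).2
  have hvV : v ∈ V := hv ▸ (b 1).2
  have hu1 : ‖u‖ = 1 := by rw [hu]; exact hb.1 0
  have hv1 : ‖v‖ = 1 := by rw [hv]; exact hb.1 1
  have huv : (inner ℝ u v : ℝ) = 0 := by rw [hu, hv]; exact hb.2 (by decide : (0 : Fin 2) ≠ 1)
  have hns : ∀ z : ℝ, ‖u + z • v‖ ^ 2 = 1 + z ^ 2 := by
    intro z
    rw [@norm_add_sq_real, inner_smul_right, huv, hu1, norm_smul, hv1, Real.norm_eq_abs, mul_pow, sq_abs]
    ring
  let U : ℕ → ℝ := fun i => if h : i < n then u ⟨i, h⟩ else 0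
  let V' : ℕ → ℝ := fun i => if h : i < n then v ⟨i, h⟩ else 0
  have hpoly : ∀ z : ℝ, ∑ i ∈ Finset.range n, (U i + z * V' i) ^ (2 * i + 1) * (1 + z ^ 2) ^ (n - 1 - i) = 0 := by
    intro z
    have hpos : 0 < ‖u + z • v‖ := by
      have := hns z
      rcases (norm_nonneg (u + z • v)).eq_or_lt with h | h
      · rw [← h] at this; nlinarith [sq_nonneg z]
      · exact h
    have h1 := hcon ((‖u + z • v‖)⁻¹ • (u + z • v)) (V.smul_mem _ (V.add_mem huV (V.smul_mem _ hvV)))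
      (by rw [norm_smul, norm_inv, norm_norm, inv_mul_cancel₀ hpos.ne'])
    unfold pf at h1
    rw [← Fin.sum_univ_eq_sum_range (fun i => (U i + z * V' i) ^ (2 * i + 1) * (1 + z ^ 2) ^ (n - 1 - i))]
    have h2 : ∑ i : Fin n, (U i + z * V' i) ^ (2 * (i : ℕ) + 1) * (1 + z ^ 2) ^ (n - 1 - (i : ℕ)) =
        ‖u + z • v‖ ^ (2 * n - 1) * ∑ i : Fin n, ((‖u + z • v‖⁻¹ • (u + z • v)) i) ^ (2 * (i : ℕ) + 1) := by
      rw [Finset.mul_sum]
      refine Finset.sum_congr rfl fun i _ => ?_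
      have hUi : U i = u i := by simp [U]
      have hVi : V' i = v i := by simp [V']
      rw [hUi, hVi, ← hns z, ← pow_mul]
      simp only [PiLp.smul_apply, PiLp.add_apply, smul_eq_mul]
      rw [mul_pow, inv_pow]
      have hi := i.2
      have hexp : 2 * n - 1 = 2 * (n - 1 - (i : ℕ)) + (2 * (i : ℕ) + 1) := by omega
      rw [hexp, pow_add ‖u + z • v‖]
      field_simp
    rw [h2, h1, mul_zero]
  have hz := poly_zero n U V' hpoly
  have : u = 0 := by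
    ext i
    have := (hz i i.2).1
    simpa [U] using this
  rw [this] at hu1
  simp at hu1

lemma exists_eta (n : ℕ) : ∃ η > 0, ∀ V : Submodule ℝ (E n), finrank ℝ V = 2 →
    ∃ x ∈ V, ‖x‖ = 1 ∧ η ≤ pf n x := by
  by_contra hcon
  push Not at hcon
  have h' : ∀ j : ℕ, ∃ V : Submodule ℝ (E n), finrank ℝ V = 2 ∧
      ∀ x ∈ V, ‖x‖ = 1 → pf n x < 1 / ((j : ℝ) + 1) := fun j => hcon _ (by positivity)
  choose W hW hs using h'
  obtain ⟨φ, hφ, W', hW', hy⟩ := grass_compact W hW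
  obtain ⟨x, hx, hx1, hne⟩ := exists_pf_ne W' hW'
  apply hne
  obtain ⟨y, hy1, hy2⟩ := hy x hx hx1
  have h2 : Tendsto (fun j : ℕ => 1 / (((φ j : ℕ) : ℝ) + 1)) atTop (𝓝 0) :=
    tendsto_one_div_add_atTop_nhds_zero_nat.comp hφ.tendsto_atTop
  have h3 : Tendsto (fun j => pf n (y j)) atTop (𝓝 (pf n x)) :=
    pf_cont.continuousAt.tendsto.comp hy2
  have h4 : Tendsto (fun j => pf n (y j)) atTop (𝓝 0) := by
    apply squeeze_zero_norm _ h2
    intro j
    rw [Real.norm_eq_abs, abs_le]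
    constructor
    · have := hs (φ j) (-y j) ((W (φ j)).neg_mem (hy1 j).1) (by rw [norm_neg]; exact (hy1 j).2)
      rw [pf_neg] at this
      linarith
    · exact (hs (φ j) (y j) (hy1 j).1 (hy1 j).2).le
  exact tendsto_nhds_unique h3 h4

lemma small (hn : 2 ≤ n) : ∃ ε0 > 0, ∀ ε < ε0, ¬ Forces n 2 ε 1 := by
  obtain ⟨η, hη, hV⟩ := exists_eta n
  let A : Set (E n) := {x | x ∈ sphere (0 : E n) 1 ∧ η ≤ pf n x}
  have hAc : IsCompact A := by
    have : A = sphere (0 : E n) 1 ∩ {x | η ≤ pf n x} := rfl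
    rw [this]
    exact (isCompact_sphere _ _).inter_right (isClosed_le continuous_const pf_cont)
  have hT : Transversal n 2 A := by
    refine ⟨fun x hx => hx.1, fun V hd => ?_⟩
    obtain ⟨x, hx, hx1, hp⟩ := hV V hd
    exact ⟨x, ⟨by simpa using hx1, hp⟩, hx⟩
  have hne : A.Nonempty := hT.nonempty hn
  obtain ⟨⟨a0, b0⟩, ⟨ha0, hb0⟩, hmin⟩ := (hAc.prod hAc).exists_isMinOn (hne.prod hne)
    (f := fun q : E n × E n => ‖q.1 + q.2‖) (by fun_prop)
  have hpos : 0 < ‖a0 + b0‖ := by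
    rw [norm_pos_iff]
    intro h0
    have : b0 = -a0 := by rw [eq_neg_iff_add_eq_zero, add_comm]; exact h0
    have h1 := hb0.2
    have h2 := ha0.2
    simp only at h1 h2
    rw [this, pf_neg] at h1
    linarith
  refine ⟨‖a0 + b0‖ / 2, by positivity, fun ε hε h => ?_⟩
  obtain ⟨W, hW, hs⟩ := h A hT
  obtain ⟨x, hx, hx1⟩ := exists_unit W (by omega)
  have hxA := (hs ⟨hx, by simpa using hx1⟩).2
  have hxA' := (hs ⟨W.neg_mem hx, by simpa using hx1⟩).2
  obtain ⟨a, ha, hda⟩ := hAc.exists_infDist_eq_dist hne x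
  obtain ⟨b, hb, hdb⟩ := hAc.exists_infDist_eq_dist hne (-x)
  have h1 := hmin (show ((a, b) : E n × E n) ∈ A ×ˢ A from ⟨ha, hb⟩)
  simp only [Set.mem_ofPred_eq] at h1
  have h2 : ‖a + b‖ ≤ dist x a + dist (-x) b := by
    have : a + b = -(x - a) - (-x - b) := by abel
    rw [this, dist_eq_norm, dist_eq_norm]
    calc _ ≤ ‖-(x - a)‖ + ‖-x - b‖ := norm_sub_le _ _
      _ = _ := by rw [norm_neg]
  linarith

end TR624
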